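import Mathlib
import Pool.Agent.H97R2.BP.Defs
import Pool.Agent.H97R2.BP.Defs2

open scoped ComplexOrder InnerProductSpace ComplexConjugate TensorProduct
open Finset H759R2.Kad H710R2.DP

noncomputable section

namespace H97R2.BP

theorem bp_std (h1 : Z_amp) (h2 : Z_std1) : Z_std := by
  intro H _ _ _ M k ξ e he hpr heξ hy
  obtain ⟨G, iG1, iG2, iG3, W, ζ, i, r, hiW, hrM, himul, hrmul, hiadj, hradj, hrnrm, hir, hiz,
    hlast⟩ := h1 H M k ξ
  set e' : M.toStarSubalgebra := ⟨e, he⟩ with he'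
  -- `r` of the image of `i`
  have hri : ∀ a : M.toStarSubalgebra, r ⟨i a, hiW a⟩ = (a : H →L[ℂ] H) := fun a =>
    (hir a ⟨i a, hiW a⟩).1 rfl
  have hr1 : r 1 = 1 := by
    have h := hrmul 1 ⟨i 1, hiW 1⟩
    rw [one_mul, hri] at h
    simpa using h.symm
  have hi1 : i 1 = 1 := (hir 1 1).2 (by rw [hr1]; rfl)
  have hee : e' * e' = e' := Subtype.ext hpr.2
  have hes : star e' = e' := Subtype.ext hpr.1
  have hpr' : IsPr (i e') := ⟨by rw [← hiadj, hes], by rw [← himul, hee]⟩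
  have hez : i e' ζ = ζ := by
    have h3 := hiz (1 - e')
    have h4 : ∀ j, ((1 - e' : M.toStarSubalgebra) : H →L[ℂ] H) (ξ j) = 0 := by
      intro j
      change ((1 : H →L[ℂ] H) - e) (ξ j) = 0
      rw [sub_apply, heξ j]
      exact sub_self _
    simp only [h4, norm_zero] at h3
    rw [map_sub, hi1] at h3
    have h5 : ‖((1 : G →L[ℂ] G) - i e') ζ‖ = 0 := by
      have h6 : ‖((1 : G →L[ℂ] G) - i e') ζ‖ ^ 2 = 0 := by
        rw [h3]; simp
      exact pow_eq_zero_iff (two_ne_zero) |>.1 h6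
    rw [norm_eq_zero, sub_apply, sub_eq_zero] at h5
    exact h5.symm
  obtain ⟨K, iK1, iK2, iK3, N, Ω, jt, hS⟩ := h2 G W ζ (i e') (hiW e') hpr' hez (hlast e' hy)
  have hmemW : ∀ a, jt a ∈ W.toStarSubalgebra := fun a => (hS.mem a).1
  refine ⟨K, iK1, iK2, iK3, N, Ω,
    { toFun := fun a => r ⟨jt a, hmemW a⟩
      map_add' := fun a b => by
        rw [← map_add]
        congr 1
        exact Subtype.ext (map_add jt a b)
      map_smul' := fun c a => by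
        rw [← map_smul]
        congr 1
        exact Subtype.ext (map_smul jt c a) }, ?_⟩
  have hre : r ⟨i e', hiW e'⟩ = e := hri e'
  have hij : ∀ a, i ⟨r ⟨jt a, hmemW a⟩, hrM _⟩ = jt a := fun a =>
    (hir ⟨r ⟨jt a, hmemW a⟩, hrM _⟩ ⟨jt a, hmemW a⟩).2 rfl
  refine ⟨?_, ?_, ?_, ?_, ?_, ?_, hS.cyc, hS.sep⟩
  · intro a b
    change r ⟨jt (a * b), _⟩ = r ⟨jt a, _⟩ * r ⟨jt b, _⟩
    rw [← hrmul]
    congr 1
    exact Subtype.ext (hS.mul a b)
  · intro a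
    change r ⟨jt (star a), _⟩ = star (r ⟨jt a, _⟩)
    rw [← hradj]
    congr 1
    exact Subtype.ext (hS.adj a)
  · intro a
    change ‖r ⟨jt a, _⟩‖ = ‖a‖
    rw [hrnrm, ← hS.nrm a]
    rfl
  · intro a
    change r ⟨jt a, _⟩ ∈ M ∧ e * r ⟨jt a, _⟩ = r ⟨jt a, _⟩ ∧ r ⟨jt a, _⟩ * e = r ⟨jt a, _⟩
    obtain ⟨-, m2, m3⟩ := hS.mem a
    refine ⟨hrM _, ?_, ?_⟩
    · nth_rewrite 1 [← hre]
      rw [← hrmul]
      congr 1
      exact Subtype.ext m2
    · nth_rewrite 1 [← hre]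
      rw [← hrmul]
      congr 1
      exact Subtype.ext m3
  · intro m hm hem hme
    have q1 : i e' * i ⟨m, hm⟩ = i ⟨m, hm⟩ := by
      rw [← himul]
      congr 1
      exact Subtype.ext hem
    have q2 : i ⟨m, hm⟩ * i e' = i ⟨m, hm⟩ := by
      rw [← himul]
      congr 1
      exact Subtype.ext hme
    obtain ⟨a, ha⟩ := hS.onto _ (hiW _) q1 q2
    refine ⟨a, ?_⟩
    change r ⟨jt a, _⟩ = m
    exact (hir ⟨m, hm⟩ ⟨jt a, hmemW a⟩).1 ha.symm
  · intro a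
    change ‖(a : K →L[ℂ] K) Ω‖ ^ 2 = ∑ l, ‖r ⟨jt a, _⟩ (ξ l)‖ ^ 2
    rw [hS.vec a]
    have h3 := hiz ⟨r ⟨jt a, hmemW a⟩, hrM _⟩
    rw [hij a] at h3
    simpa using h3

end H97R2.BP
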